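import Mathlib
import Pool.Agent.Lib_helper76.LD.Defs2
import Pool.Agent.Lib_helper59.LD.D1

/-!
Block D2 (Lemma K) of the project LD part 2 (helper76): a multilinear form with low-rank 2-slices
vanishes on a subspace of small codimension.
-/

set_option autoImplicit false

namespace Pool.Agent.Lib_helper76.LD

open Finset

section d2

variable {F : Type} [Field F] {E : Type} [AddCommGroup E] [Module F E]
  {ι : Type} [DecidableEq ι]

/-- The predicate `P` holds on the kernel of `N` linear functionals. -/
def d2_Cod (F : Type) [Field F] {E : Type} [AddCommGroup E] [Module F E] (N : ℕ)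
    (P : E → Prop) : Prop :=
  ∃ φ : E →ₗ[F] (Fin N → F), ∀ u, φ u = 0 → P u

theorem d2_cod_of {κ : Type} [Fintype κ] {N : ℕ} (h : Fintype.card κ ≤ N) (P : E → Prop)
    (φ : E →ₗ[F] (κ → F)) (hφ : ∀ u, φ u = 0 → P u) : d2_Cod F N P := by
  classical
  let e := Fintype.equivFin κ
  refine ⟨LinearMap.pi fun n : Fin N => if hn : n.1 < Fintype.card κ then
    (LinearMap.proj (e.symm ⟨n.1, hn⟩) : (κ → F) →ₗ[F] F).comp φ else 0, ?_⟩
  intro u hu
  apply hφ
  funext k
  have h1 := congrFun hu ⟨(e k).1, lt_of_lt_of_le (e k).2 h⟩
  simp only [LinearMap.pi_apply] at h1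
  rw [dif_pos (e k).2] at h1
  simpa using h1

theorem d2_cod_mono {N N' : ℕ} (h : N ≤ N') {P Q : E → Prop} (hPQ : ∀ u, P u → Q u)
    (hP : d2_Cod F N P) : d2_Cod F N' Q := by
  obtain ⟨φ, hφ⟩ := hP
  exact d2_cod_of (κ := Fin N) (by simpa using h) Q φ (fun u hu => hPQ u (hφ u hu))

theorem d2_cod_forall {κ : Type} [Fintype κ] {N : ℕ} (P : κ → E → Prop)
    (hP : ∀ k, d2_Cod F N (P k)) : d2_Cod F (Fintype.card κ * N) (fun u => ∀ k, P k u) := by
  classical
  choose φ hφ using hP
  refine d2_cod_of (κ := κ × Fin N) (by simp) _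
    (LinearMap.pi fun kn : κ × Fin N => (LinearMap.proj kn.2 : (Fin N → F) →ₗ[F] F).comp (φ kn.1)) ?_
  intro u hu k
  apply hφ
  funext n
  have := congrFun hu (k, n)
  simpa using this

theorem d2_cod_finset {κ : Type} (s : Finset κ) {N : ℕ} (P : κ → E → Prop)
    (hP : ∀ k ∈ s, d2_Cod F N (P k)) : d2_Cod F (s.card * N) (fun u => ∀ k ∈ s, P k u) := by
  classical
  have h := d2_cod_forall (F := F) (κ := {k // k ∈ s}) (N := N) (fun k => P k.1)
    (fun k => hP k.1 k.2)
  refine d2_cod_mono (by simp) ?_ h
  intro u hu k hk
  exact hu ⟨k, hk⟩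

theorem d2_betaK_two : betaK 2 = 2 := by simp [betaK]

theorem d2_betaK_mono (m : ℕ) : betaK m ≤ betaK (m + 1) := by
  by_cases h : m + 1 ≤ 2
  · have h1 : betaK (m + 1) = 2 := by simp [betaK, h]
    rw [h1]
    have h2 : m ≤ 1 := by omega
    interval_cases m
    · simp [betaK]
    · simp [betaK]
  · have h1 : betaK (m + 1) = (m + 1) * 2 ^ (m + 1) * betaK m := by
      rw [betaK, if_neg h]
    rw [h1]
    exact Nat.le_mul_of_pos_left _ (by positivity)

theorem d2_betaK_monotone : Monotone betaK := monotone_nat_of_le_succ d2_betaK_mono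

/-- Expansion of the form along the line `m + τ x` in the slots of `S`. -/
theorem d2_expand (T : MultilinearMap F (fun _ : ι => E) F) (S : Finset ι) (τ : F)
    (x m : ι → E) :
    T (fun j => if j ∈ S then m j + τ • x j else m j) =
      ∑ S' ∈ S.powerset, τ ^ S'.card * T (S'.piecewise x m) := by
  have h1 : (fun j => if j ∈ S then m j + τ • x j else m j) =
      S.piecewise ((fun j => τ • x j) + m) m := by
    funext j
    by_cases hj : j ∈ S
    · simp [hj, add_comm]
    · simp [hj]
  rw [h1, MultilinearMap.map_piecewise_add]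
  refine Finset.sum_congr rfl fun S' hS' => ?_
  have h2 : S'.piecewise (fun j => τ • x j) m =
      S'.piecewise (fun i => (fun _ => τ) i • (S'.piecewise x m) i) (S'.piecewise x m) := by
    funext j
    by_cases hj : j ∈ S'
    · simp [hj]
    · simp [hj]
  rw [h2, MultilinearMap.map_piecewise_smul]
  simp

/-- The polynomial `τ ↦ T (m + τ x)`. -/
noncomputable def d2_poly (T : MultilinearMap F (fun _ : ι => E) F) (S : Finset ι)
    (x m : ι → E) : Polynomial F :=
  ∑ S' ∈ S.powerset, Polynomial.C (T (S'.piecewise x m)) * Polynomial.X ^ S'.card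

theorem d2_poly_eval (T : MultilinearMap F (fun _ : ι => E) F) (S : Finset ι) (τ : F)
    (x m : ι → E) :
    (d2_poly T S x m).eval τ = T (fun j => if j ∈ S then m j + τ • x j else m j) := by
  rw [d2_expand, d2_poly, Polynomial.eval_finsetSum]
  refine Finset.sum_congr rfl fun S' _ => ?_
  rw [Polynomial.eval_mul, Polynomial.eval_C, Polynomial.eval_pow, Polynomial.eval_X, mul_comm]

theorem d2_poly_natDegree (T : MultilinearMap F (fun _ : ι => E) F) (S : Finset ι)
    (x m : ι → E) : (d2_poly T S x m).natDegree ≤ S.card := by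
  refine Polynomial.natDegree_sum_le_of_forall_le _ _ fun S' hS' => ?_
  exact (Polynomial.natDegree_C_mul_X_pow_le _ _).trans
    (Finset.card_le_card (Finset.mem_powerset.1 hS'))

theorem d2_poly_coeff (T : MultilinearMap F (fun _ : ι => E) F) (S : Finset ι)
    (x m : ι → E) : (d2_poly T S x m).coeff S.card = T (S.piecewise x m) := by
  rw [d2_poly, Polynomial.finsetSum_coeff]
  rw [Finset.sum_eq_single S]
  · simp
  · intro S' hS' hne
    have hsub := Finset.mem_powerset.1 hS'
    have hlt : S'.card < S.card := Finset.card_lt_card (Finset.ssubset_iff_subset_ne.2 ⟨hsub, hne⟩)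
    rw [Polynomial.coeff_C_mul, Polynomial.coeff_X_pow, if_neg (by omega), mul_zero]
  · intro h
    exact absurd (Finset.mem_powerset_self S) h

theorem d2_det_natDegree {r : ℕ} (M : Matrix (Fin r) (Fin r) (Polynomial F)) (D : ℕ)
    (hM : ∀ i j, (M i j).natDegree ≤ D) : M.det.natDegree ≤ r * D := by
  rw [Matrix.det_apply]
  refine Polynomial.natDegree_sum_le_of_forall_le _ _ fun σ _ => ?_
  refine (Polynomial.natDegree_smul_le _ _).trans ?_
  refine (Polynomial.natDegree_prod_le _ _).trans ?_
  refine (Finset.sum_le_card_nsmul _ _ D fun i _ => hM _ _).trans ?_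
  simp

/-- Bordered minors. -/
theorem d2_minor (T : MultilinearMap F (fun _ : ι => E) F) (r : ℕ) (X : ι → E) (a b : ι)
    (hz : ∀ p q : Fin (r + 1) → E,
      (Matrix.of fun i j => T (Function.update (Function.update X a (p i)) b (q j))).det = 0)
    (p q : Fin r → E) (u v : E) :
    (Matrix.fromBlocks
      (Matrix.of fun i j => T (Function.update (Function.update X a (p i)) b (q j)))
      (Matrix.of fun i _ => T (Function.update (Function.update X a (p i)) b v))
      (Matrix.of fun _ j => T (Function.update (Function.update X a u) b (q j)))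
      (Matrix.of fun _ _ => T (Function.update (Function.update X a u) b v)) :
        Matrix (Fin r ⊕ Fin 1) (Fin r ⊕ Fin 1) F).det = 0 := by
  let e : Fin r ⊕ Fin 1 ≃ Fin (r + 1) := finSumFinEquiv
  have h := hz (Sum.elim p (fun _ => u) ∘ e.symm) (Sum.elim q (fun _ => v) ∘ e.symm)
  rw [← Matrix.det_submatrix_equiv_self e] at h
  rw [← h]
  congr 1
  ext i j
  rcases i with i | i <;> rcases j with j | j <;> simp

/-- Existence of a maximal nonzero minor. -/
theorem d2_max (Q : ℕ → Prop) (ρ : ℕ) (h0 : Q 0) (hρ : ¬ Q (ρ + 1)) :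
    ∃ r, r ≤ ρ ∧ Q r ∧ ¬ Q (r + 1) := by
  by_contra hcon
  push Not at hcon
  have h : ∀ r, r ≤ ρ + 1 → Q r := by
    intro r
    induction r with
    | zero => intro _; exact h0
    | succ r ih => intro hr; exact hcon r (by omega) (ih (by omega))
  exact hρ (h _ le_rfl)

/-- `P` is good for the free slots `J` and the base point `w`. -/
def d2_Good (T : MultilinearMap F (fun _ : ι => E) F) (J : Finset ι) (w : ι → E)
    (P : E → Prop) : Prop :=
  ∀ x : ι → E, (∀ j, j ∉ J → x j = w j) → ∀ j₀ ∈ J, (∀ j ∈ J, j ≠ j₀ → P (x j)) → T x = 0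

theorem d2_base (T : MultilinearMap F (fun _ : ι => E) F) (ρ : ℕ)
    (hρ : ∀ (z : ι → E) (a b : ι), a ≠ b → ∀ p q : Fin (ρ + 1) → E,
      (Matrix.of fun i j => T (Function.update (Function.update z a (p i)) b (q j))).det = 0)
    (J : Finset ι) (hJ : J.card = 2) (w : ι → E) :
    ∃ P : E → Prop, d2_Cod F (betaK 2 * ρ) P ∧ d2_Good T J w P := by
  classical
  obtain ⟨a, b, hab, rfl⟩ := Finset.card_eq_two.1 hJ
  obtain ⟨r, hr, ⟨p, q, hpq⟩, hmax⟩ := d2_max
    (fun r => ∃ p q : Fin r → E,
      (Matrix.of fun i j => T (Function.update (Function.update w a (p i)) b (q j))).det ≠ 0) ρ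
    ⟨Fin.elim0, Fin.elim0, by simp⟩ (by
      rintro ⟨p, q, h⟩
      exact h (hρ w a b hab p q))
  push Not at hmax
  refine ⟨fun u => (∀ j, T (Function.update (Function.update w a u) b (q j)) = 0) ∧
    (∀ i, T (Function.update (Function.update w a (p i)) b u) = 0), ?_, ?_⟩
  · refine d2_cod_of (κ := Fin r ⊕ Fin r) ?_ _
      (LinearMap.pi (Sum.elim
        (fun j => T.toLinearMap (Function.update w b (q j)) a)
        (fun i => T.toLinearMap (Function.update w a (p i)) b))) ?_
    · rw [d2_betaK_two]; simp; omega
    · intro u hu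
      refine ⟨fun j => ?_, fun i => ?_⟩
      · have := congrFun hu (Sum.inl j)
        simp only [LinearMap.pi_apply, Sum.elim_inl, MultilinearMap.toLinearMap_apply,
          Pi.zero_apply] at this
        rw [Function.update_comm hab]
        exact this
      · have := congrFun hu (Sum.inr i)
        simpa only [LinearMap.pi_apply, Sum.elim_inr, MultilinearMap.toLinearMap_apply,
          Pi.zero_apply] using this
  · intro x hx j₀ hj₀ hP
    have hxe : x = Function.update (Function.update w a (x a)) b (x b) := by
      funext j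
      by_cases h1 : j = b
      · subst h1; simp
      · rw [Function.update_of_ne h1]
        by_cases h2 : j = a
        · subst h2; simp
        · rw [Function.update_of_ne h2]
          exact hx j (by simp [h1, h2])
    have hmin := d2_minor T r w a b hmax p q (x a) (x b)
    rw [hxe]
    have key : (Matrix.of fun i j =>
        T (Function.update (Function.update w a (p i)) b (q j))).det *
        T (Function.update (Function.update w a (x a)) b (x b)) = 0 := by
      rcases Finset.mem_insert.1 hj₀ with h | h
      · -- the vector `x b` is in the kernel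
        subst h
        have hPb := hP b (by simp) (Ne.symm hab)
        have h0 : (Matrix.of fun (i : Fin r) (_ : Fin 1) =>
            T (Function.update (Function.update w j₀ (p i)) b (x b))) = 0 := by
          ext i j
          simpa using hPb.2 i
        rw [h0, Matrix.det_fromBlocks_zero₁₂] at hmin
        simpa using hmin
      · have h' := Finset.mem_singleton.1 h
        subst h'
        have hPa := hP a (by simp) hab
        have h0 : (Matrix.of fun (_ : Fin 1) (j : Fin r) =>
            T (Function.update (Function.update w a (x a)) j₀ (q j))) = 0 := by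
          ext i j
          simpa using hPa.1 j
        rw [h0, Matrix.det_fromBlocks_zero₂₁] at hmin
        simpa using hmin
    exact (mul_eq_zero.1 key).resolve_left hpq

theorem d2_upd (S : Finset ι) (τ : F) (x m : ι → E) (k : ι) (hk : k ∉ S) (e : E) :
    (fun j => if j ∈ S then Function.update m k e j + τ • x j else Function.update m k e j) =
      Function.update (fun j => if j ∈ S then m j + τ • x j else m j) k e := by
  funext j
  by_cases h : j = k
  · subst h
    simp [hk]
  · simp [Function.update_of_ne h]

theorem d2_stepc [Fintype F] [Fintype ι] (T : MultilinearMap F (fun _ : ι => E) F) (ρ : ℕ)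
    (hF : (ρ + 1) * Fintype.card ι + 1 < Fintype.card F)
    (hρ : ∀ (z : ι → E) (a b : ι), a ≠ b → ∀ p q : Fin (ρ + 1) → E,
      (Matrix.of fun i j => T (Function.update (Function.update z a (p i)) b (q j))).det = 0)
    (m : ℕ) (hm : 2 ≤ m)
    (ih : ∀ J' : Finset ι, 2 ≤ J'.card → J'.card ≤ m → ∀ w : ι → E,
      ∃ P : E → Prop, d2_Cod F (betaK m * ρ) P ∧ d2_Good T J' w P)
    (J : Finset ι) (hJ : J.card = m + 1) (w : ι → E) (c : ι) (hc : c ∈ J) :
    ∃ P : E → Prop, d2_Cod F (2 ^ (m + 1) * (betaK m * ρ)) P ∧
      ∀ x : ι → E, (∀ j, j ∉ J → x j = w j) → (∀ j ∈ J, j ≠ c → P (x j)) → T x = 0 := by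
  classical
  have hJc : (J.erase c).card = m := by rw [Finset.card_erase_of_mem hc, hJ]; omega
  obtain ⟨a, ha, b, hb, hab⟩ := Finset.one_lt_card.1 (by omega : 1 < (J.erase c).card)
  obtain ⟨hac, haJ⟩ := Finset.mem_erase.1 ha
  obtain ⟨hbc, hbJ⟩ := Finset.mem_erase.1 hb
  obtain ⟨S, hSdef⟩ : ∃ S : Finset ι, S = ((J.erase c).erase a).erase b := ⟨_, rfl⟩
  have hSJ : ∀ j ∈ S, j ∈ J := by
    intro j hj
    rw [hSdef] at hj
    exact Finset.mem_of_mem_erase (Finset.mem_of_mem_erase (Finset.mem_of_mem_erase hj))
  have haS : a ∉ S := by rw [hSdef]; simp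
  have hbS : b ∉ S := by rw [hSdef]; simp
  have hcS : c ∉ S := by rw [hSdef]; simp
  have hmemJ : ∀ j, j ∈ J → j ≠ a → j ≠ b → j ≠ c → j ∈ S := by
    intro j hj h1 h2 h3
    rw [hSdef]
    exact Finset.mem_erase.2 ⟨h2, Finset.mem_erase.2 ⟨h1, Finset.mem_erase.2 ⟨h3, hj⟩⟩⟩
  have hScard : S.card + 2 ≤ m := by
    have h1 : ((J.erase c).erase a).card = m - 1 := by
      rw [Finset.card_erase_of_mem ha, hJc]
    have h2 : S.card = m - 1 - 1 := by
      rw [hSdef, Finset.card_erase_of_mem (Finset.mem_erase.2 ⟨Ne.symm hab, hb⟩), h1]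
    omega
  -- a maximal nonzero minor
  obtain ⟨r, hr, ⟨x₀, hx₀, p, q, hpq⟩, hmax⟩ := d2_max
    (fun r => ∃ x₀ : ι → E, (∀ j, j ∉ J → x₀ j = w j) ∧ ∃ p q : Fin r → E,
      (Matrix.of fun i j => T (Function.update (Function.update x₀ a (p i)) b (q j))).det ≠ 0) ρ
    ⟨w, fun _ _ => rfl, Fin.elim0, Fin.elim0, by simp⟩ (by
      rintro ⟨x₀, _, p, q, h⟩
      exact h (hρ x₀ a b hab p q))
  push Not at hmax
  -- the induction hypothesis
  have hcardS' : ∀ S' ∈ S.powerset, (insert a (insert b S')).card = S'.card + 2 := by
    intro S' hS'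
    have hsub := Finset.mem_powerset.1 hS'
    have h1 : b ∉ S' := fun h => hbS (hsub h)
    have h2 : a ∉ insert b S' := by
      simp only [Finset.mem_insert, not_or]
      exact ⟨hab, fun h => haS (hsub h)⟩
    rw [Finset.card_insert_of_notMem h2, Finset.card_insert_of_notMem h1]
  have hih : ∀ S' : Finset ι, ∃ P : E → Prop, S' ∈ S.powerset →
      (d2_Cod F (betaK m * ρ) P ∧ d2_Good T (insert a (insert b S')) x₀ P) := by
    intro S'
    by_cases hS' : S' ∈ S.powerset
    · obtain ⟨P, hP1, hP2⟩ := ih (insert a (insert b S')) (by rw [hcardS' S' hS']; omega)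
        (by
          rw [hcardS' S' hS']
          have := Finset.card_le_card (Finset.mem_powerset.1 hS')
          omega) x₀
      exact ⟨P, fun _ => ⟨hP1, hP2⟩⟩
    · exact ⟨fun _ => True, fun h => absurd h hS'⟩
  choose PP hPP using hih
  refine ⟨fun u => ∀ S' ∈ S.powerset, PP S' u, ?_, ?_⟩
  · refine d2_cod_mono ?_ (fun u hu => hu)
      (d2_cod_finset S.powerset PP fun S' hS' => (hPP S' hS').1)
    rw [Finset.card_powerset]
    exact Nat.mul_le_mul_right _ (Nat.pow_le_pow_right (by norm_num) (by omega))
  · intro x hx hP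
    -- the points `x_τ`
    obtain ⟨xt, hxt⟩ : ∃ xt : F → ι → E,
        xt = fun τ j => if j ∈ S then x₀ j + τ • x j else x₀ j := ⟨_, rfl⟩
    have hxt_c : ∀ τ, xt τ c = x₀ c := by intro τ; rw [hxt]; simp [hcS]
    have hxt_off : ∀ τ j, j ∉ J → xt τ j = w j := by
      intro τ j hj
      rw [hxt]
      have : j ∉ S := fun h => hj (hSJ j h)
      simp [this, hx₀ j hj]
    have hxt0 : xt 0 = x₀ := by rw [hxt]; funext j; simp
    have hform2 : ∀ τ e f, (fun j => if j ∈ S then
        Function.update (Function.update x₀ a e) b f j + τ • x j else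
        Function.update (Function.update x₀ a e) b f j) =
        Function.update (Function.update (xt τ) a e) b f := by
      intro τ e f
      rw [d2_upd S τ x _ b hbS, d2_upd S τ x _ a haS, hxt]
    have hform3 : ∀ τ g e f, (fun j => if j ∈ S then
        Function.update (Function.update (Function.update x₀ c g) a e) b f j + τ • x j else
        Function.update (Function.update (Function.update x₀ c g) a e) b f j) =
        Function.update (Function.update (Function.update (xt τ) c g) a e) b f := by
      intro τ g e f
      rw [d2_upd S τ x _ b hbS, d2_upd S τ x _ a haS, d2_upd S τ x _ c hcS, hxt]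
    -- (i)
    have hi1 : ∀ τ e, T (Function.update (Function.update (xt τ) a (x a)) b e) = 0 := by
      intro τ e
      rw [← hform2, d2_expand]
      refine Finset.sum_eq_zero fun S' hS' => ?_
      have hsub := Finset.mem_powerset.1 hS'
      have haS' : a ∉ S' := fun h => haS (hsub h)
      have hbS' : b ∉ S' := fun h => hbS (hsub h)
      rw [(hPP S' hS').2 _ ?_ b (by simp) ?_, mul_zero]
      · intro j hj
        simp only [Finset.mem_insert, not_or] at hj
        rw [Finset.piecewise_eq_of_notMem _ _ _ hj.2.2, Function.update_of_ne hj.2.1,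
          Function.update_of_ne hj.1]
      · intro j hj hjb
        rcases Finset.mem_insert.1 hj with h | h
        · subst h
          rw [Finset.piecewise_eq_of_notMem _ _ _ haS', Function.update_of_ne hab,
            Function.update_self]
          exact hP j haJ hac S' hS'
        · rcases Finset.mem_insert.1 h with h | h
          · exact absurd h hjb
          · rw [Finset.piecewise_eq_of_mem _ _ _ h]
            exact hP j (hSJ j (hsub h)) (fun hjc => hcS (hjc ▸ hsub h)) S' hS'
    have hi2 : ∀ τ e, T (Function.update (Function.update (xt τ) a e) b (x b)) = 0 := by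
      intro τ e
      rw [← hform2, d2_expand]
      refine Finset.sum_eq_zero fun S' hS' => ?_
      have hsub := Finset.mem_powerset.1 hS'
      have haS' : a ∉ S' := fun h => haS (hsub h)
      have hbS' : b ∉ S' := fun h => hbS (hsub h)
      rw [(hPP S' hS').2 _ ?_ a (by simp) ?_, mul_zero]
      · intro j hj
        simp only [Finset.mem_insert, not_or] at hj
        rw [Finset.piecewise_eq_of_notMem _ _ _ hj.2.2, Function.update_of_ne hj.2.1,
          Function.update_of_ne hj.1]
      · intro j hj hja
        rcases Finset.mem_insert.1 hj with h | h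
        · exact absurd h hja
        · rcases Finset.mem_insert.1 h with h | h
          · subst h
            rw [Finset.piecewise_eq_of_notMem _ _ _ hbS', Function.update_self]
            exact hP j hbJ hbc S' hS'
          · rw [Finset.piecewise_eq_of_mem _ _ _ h]
            exact hP j (hSJ j (hsub h)) (fun hjc => hcS (hjc ▸ hsub h)) S' hS'
    -- linearity in the slot `c`
    have hlin : ∀ τ σ e f, T (Function.update (Function.update
        (Function.update (xt τ) c (x₀ c + σ • x c)) a e) b f) =
        T (Function.update (Function.update (xt τ) a e) b f) + σ *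
        T (Function.update (Function.update (Function.update (xt τ) c (x c)) a e) b f) := by
      intro τ σ e f
      have hcomm : ∀ g, Function.update (Function.update (Function.update (xt τ) c g) a e) b f =
          Function.update (Function.update (Function.update (xt τ) a e) b f) c g := by
        intro g
        rw [Function.update_comm (Ne.symm hac), Function.update_comm (Ne.symm hbc)]
      rw [hcomm, hcomm, MultilinearMap.map_update_add, MultilinearMap.map_update_smul,
        smul_eq_mul]
      congr 2
      rw [← hxt_c τ]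
      have h1 : (xt τ) c = Function.update (Function.update (xt τ) a e) b f c := by
        rw [Function.update_of_ne (Ne.symm hbc), Function.update_of_ne (Ne.symm hac)]
      rw [h1, Function.update_eq_self]
    -- (ii)
    have hii : ∀ τ, (Matrix.of fun i j =>
        T (Function.update (Function.update (xt τ) a (p i)) b (q j))).det ≠ 0 →
        T (Function.update (Function.update (Function.update (xt τ) c (x c)) a (x a)) b (x b))
          = 0 := by
      intro τ hτ
      refine flanders_pr r ?_ _
        (Matrix.of fun i j => T (Function.update (Function.update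
          (Function.update (xt τ) c (x c)) a (p i)) b (q j)))
        (Matrix.of fun i _ => T (Function.update (Function.update
          (Function.update (xt τ) c (x c)) a (p i)) b (x b)))
        (Matrix.of fun _ j => T (Function.update (Function.update
          (Function.update (xt τ) c (x c)) a (x a)) b (q j))) _ hτ ?_
      · have h1 : 1 ≤ Fintype.card ι := Fintype.card_pos_iff.2 ⟨a⟩
        nlinarith
      · intro σ
        have hmin := d2_minor T r (Function.update (xt τ) c (x₀ c + σ • x c)) a b
          (fun p' q' => hmax _ (by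
            intro j hj
            have hjc : j ≠ c := fun h => hj (h ▸ hc)
            rw [Function.update_of_ne hjc]
            exact hxt_off τ j hj) p' q') p q (x a) (x b)
        rw [← hmin]
        congr 1
        ext i j
        rcases i with i | i <;> rcases j with j | j
        · simp [hlin]
        · simp [hlin, hi2]
        · simp [hlin, hi1]
        · simp [hlin, hi1]
    -- (iii)
    obtain ⟨A, hA⟩ : ∃ A : Polynomial F, A = (Matrix.of fun i j =>
        d2_poly T S x (Function.update (Function.update x₀ a (p i)) b (q j))).det := ⟨_, rfl⟩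
    obtain ⟨R, hR⟩ : ∃ R : Polynomial F, R = d2_poly T S x
        (Function.update (Function.update (Function.update x₀ c (x c)) a (x a)) b (x b)) :=
      ⟨_, rfl⟩
    have hAeval : ∀ τ, A.eval τ = (Matrix.of fun i j =>
        T (Function.update (Function.update (xt τ) a (p i)) b (q j))).det := by
      intro τ
      have h1 := RingHom.map_det (Polynomial.evalRingHom τ) (Matrix.of fun i j =>
        d2_poly T S x (Function.update (Function.update x₀ a (p i)) b (q j)))
      rw [hA]
      rw [Polynomial.coe_evalRingHom] at h1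
      rw [h1]
      congr 1
      ext i j
      simp only [RingHom.mapMatrix_apply, Matrix.map_apply, Matrix.of_apply,
        Polynomial.coe_evalRingHom]
      rw [d2_poly_eval, hform2]
    have hReval : ∀ τ, R.eval τ =
        T (Function.update (Function.update (Function.update (xt τ) c (x c)) a (x a)) b (x b)) := by
      intro τ
      rw [hR, d2_poly_eval, hform3]
    have hA0 : A ≠ 0 := by
      intro h
      apply hpq
      have := hAeval 0
      rw [h, Polynomial.eval_zero, hxt0] at this
      exact this.symm
    have hAdeg : A.natDegree ≤ r * S.card := by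
      rw [hA]
      exact d2_det_natDegree _ _ fun i j => d2_poly_natDegree _ _ _ _
    have hRdeg : R.natDegree ≤ S.card := by
      rw [hR]; exact d2_poly_natDegree _ _ _ _
    have hAR : A * R = 0 := by
      refine Polynomial.eq_zero_of_natDegree_lt_card_of_eval_eq_zero (A * R)
        (f := (id : F → F)) Function.injective_id ?_ ?_
      · intro τ
        rw [id, Polynomial.eval_mul]
        by_cases h : A.eval τ = 0
        · rw [h, zero_mul]
        · rw [hReval, hii τ (by rw [← hAeval]; exact h), mul_zero]
      · have h1 : (A * R).natDegree ≤ r * S.card + S.card :=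
          Polynomial.natDegree_mul_le.trans (by omega)
        have h2 : S.card ≤ Fintype.card ι := Finset.card_le_univ S
        have h3 : r * S.card + S.card ≤ (ρ + 1) * Fintype.card ι := by nlinarith
        omega
    have hR0 : R = 0 := (mul_eq_zero.1 hAR).resolve_left hA0
    have htop := d2_poly_coeff T S x
      (Function.update (Function.update (Function.update x₀ c (x c)) a (x a)) b (x b))
    rw [← hR, hR0, Polynomial.coeff_zero] at htop
    have hxe : S.piecewise x
        (Function.update (Function.update (Function.update x₀ c (x c)) a (x a)) b (x b)) = x := by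
      funext j
      by_cases hjS : j ∈ S
      · rw [Finset.piecewise_eq_of_mem _ _ _ hjS]
      · rw [Finset.piecewise_eq_of_notMem _ _ _ hjS]
        by_cases hjb : j = b
        · subst hjb; rw [Function.update_self]
        · rw [Function.update_of_ne hjb]
          by_cases hja : j = a
          · subst hja; rw [Function.update_self]
          · rw [Function.update_of_ne hja]
            by_cases hjc : j = c
            · subst hjc; rw [Function.update_self]
            · rw [Function.update_of_ne hjc]
              have hjJ : j ∉ J := fun h => hjS (hmemJ j h hja hjb hjc)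
              rw [hx₀ j hjJ, hx j hjJ]
    rw [hxe] at htop
    exact htop.symm

theorem d2_main [Fintype F] [Fintype ι] (T : MultilinearMap F (fun _ : ι => E) F) (ρ : ℕ)
    (hF : (ρ + 1) * Fintype.card ι + 1 < Fintype.card F)
    (hρ : ∀ (z : ι → E) (a b : ι), a ≠ b → ∀ p q : Fin (ρ + 1) → E,
      (Matrix.of fun i j => T (Function.update (Function.update z a (p i)) b (q j))).det = 0)
    (m : ℕ) (hm : 2 ≤ m) : ∀ J : Finset ι, 2 ≤ J.card → J.card ≤ m → ∀ w : ι → E,
      ∃ P : E → Prop, d2_Cod F (betaK m * ρ) P ∧ d2_Good T J w P := by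
  classical
  induction m, hm using Nat.le_induction with
  | base =>
    intro J h1 h2 w
    exact d2_base T ρ hρ J (by omega) w
  | succ m hm ih =>
    intro J h1 h2 w
    by_cases hJ : J.card ≤ m
    · obtain ⟨P, hP, hG⟩ := ih J h1 hJ w
      exact ⟨P, d2_cod_mono (Nat.mul_le_mul_right _ (d2_betaK_mono m)) (fun _ h => h) hP, hG⟩
    · have hJ' : J.card = m + 1 := by omega
      have hst : ∀ c : ι, ∃ P : E → Prop, c ∈ J → (d2_Cod F (2 ^ (m + 1) * (betaK m * ρ)) P ∧
          ∀ x : ι → E, (∀ j, j ∉ J → x j = w j) → (∀ j ∈ J, j ≠ c → P (x j)) → T x = 0) := by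
        intro c
        by_cases hc : c ∈ J
        · obtain ⟨P, h1, h2⟩ := d2_stepc T ρ hF hρ m hm ih J hJ' w c hc
          exact ⟨P, fun _ => ⟨h1, h2⟩⟩
        · exact ⟨fun _ => True, fun h => absurd h hc⟩
      choose PP hPP using hst
      refine ⟨fun u => ∀ c ∈ J, PP c u, ?_, ?_⟩
      · refine d2_cod_mono ?_ (fun u hu => hu)
          (d2_cod_finset J PP fun c hc => (hPP c hc).1)
        have hb : betaK (m + 1) = (m + 1) * 2 ^ (m + 1) * betaK m := by
          rw [betaK, if_neg (by omega)]
        rw [hJ', hb]
        apply le_of_eq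
        ring
      · intro x hx j₀ hj₀ hP
        exact (hPP j₀ hj₀).2 x hx fun j hj hne => hP j hj hne j₀ hj₀

end d2

theorem lemmaK_pr {F : Type} [Field F] [Fintype F] {E : Type} [AddCommGroup E] [Module F E]
    {ι : Type} [Fintype ι] [DecidableEq ι] (hι : 2 ≤ Fintype.card ι)
    (T : MultilinearMap F (fun _ : ι => E) F) (ρ : ℕ)
    (hF : (ρ + 1) * Fintype.card ι + 1 < Fintype.card F)
    (hρ : ∀ (z : ι → E) (a b : ι), a ≠ b → ∀ p q : Fin (ρ + 1) → E,
      (Matrix.of fun i j => T (Function.update (Function.update z a (p i)) b (q j))).det = 0) :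
    ∃ φ : E →ₗ[F] (Fin (betaK (Fintype.card ι) * ρ) → F),
      ∀ (x : ι → E) (j₀ : ι), (∀ j, j ≠ j₀ → φ (x j) = 0) → T x = 0 := by
  obtain ⟨P, ⟨φ, hφ⟩, hG⟩ := d2_main T ρ hF hρ (Fintype.card ι) hι Finset.univ
    (by rw [Finset.card_univ]; exact hι) (by rw [Finset.card_univ]) 0
  refine ⟨φ, fun x j₀ hx => ?_⟩
  exact hG x (fun j hj => absurd (Finset.mem_univ j) hj) j₀ (Finset.mem_univ j₀)
    (fun j _ hne => hφ _ (hx j hne))

end Pool.Agent.Lib_helper76.LD
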